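import Pool.Agent.Helper82.IW.Goals

/-!
Packet IB of the project IW: integration by parts on the torus.
-/

open Complex MeasureTheory Set Filter Topology
open scoped ContDiff ComplexConjugate

namespace Pool.Agent.Helper65.IW

open Pool.Agent.Helper82.IW

lemma isCompact_Q : IsCompact Q := isCompact_Icc.reProdIm isCompact_Icc

lemma int_Q {f : ℂ → ℂ} (hf : Continuous f) : IntegrableOn f Q :=
  hf.continuousOn.integrableOn_compact isCompact_Q

lemma re_Q {f : ℂ → ℂ} (hf : Continuous f) : ∫ z in Q, (f z).re = (∫ z in Q, f z).re :=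
  reCLM.integral_comp_comm (int_Q hf)

lemma cm {f g : ℂ → ℂ} (hf : Continuous f) (hg : Continuous g) : Continuous fun z => f z * g z :=
  hf.mul hg

lemma ca {f g : ℂ → ℂ} (hf : Continuous f) (hg : Continuous g) : Continuous fun z => f z + g z :=
  hf.add hg

lemma add_Q {f g : ℂ → ℂ} (hf : Continuous f) (hg : Continuous g) :
    ∫ z in Q, (f z + g z) = (∫ z in Q, f z) + ∫ z in Q, g z :=
  integral_add (int_Q hf) (int_Q hg)

lemma four_Q {a b c d : ℂ → ℂ} (ha : Continuous a) (hb : Continuous b) (hc : Continuous c)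
    (hd : Continuous d) :
    ∫ z in Q, (a z + I * b z + I * c z + (-1) * d z) =
      (∫ z in Q, a z) + I * (∫ z in Q, b z) + I * (∫ z in Q, c z) - ∫ z in Q, d z := by
  have e := continuous_const (X := ℂ) (y := I)
  have e' := continuous_const (X := ℂ) (y := (-1 : ℂ))
  rw [add_Q (ca (ca ha (cm e hb)) (cm e hc)) (cm e' hd), add_Q (ca ha (cm e hb)) (cm e hc),
    add_Q ha (cm e hb), integral_const_mul, integral_const_mul, integral_const_mul]
  ring

lemma dx_mul {f g : ℂ → ℂ} (hf : Differentiable ℝ f) (hg : Differentiable ℝ g) (z : ℂ) :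
    dx (fun w => f w * g w) z = dx f z * g z + f z * dx g z := by
  unfold dx
  rw [fderiv_fun_mul (hf z) (hg z)]
  simp [mul_comm, add_comm]

lemma dy_mul {f g : ℂ → ℂ} (hf : Differentiable ℝ f) (hg : Differentiable ℝ g) (z : ℂ) :
    dy (fun w => f w * g w) z = dy f z * g z + f z * dy g z := by
  unfold dy
  rw [fderiv_fun_mul (hf z) (hg z)]
  simp [mul_comm, add_comm]

lemma sp_diff {f : ℂ → ℂ} (hf : SP f) : Differentiable ℝ f := hf.smooth.differentiable (by simp)

lemma sp_cont {f : ℂ → ℂ} (hf : SP f) : Continuous f := hf.smooth.continuous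

/-- Integration by parts in `x`. -/
lemma ibx (hINT : S_INT) (hSPB : S_SPB) {f g : ℂ → ℂ} (hf : SP f) (hg : SP g) :
    ∫ z in Q, f z * dx g z = -∫ z in Q, dx f z * g z := by
  have h1 := hINT.1 (fun w => f w * g w)
    ((hf.smooth.mul hg.smooth).of_le (by exact_mod_cast le_top)) (fun z => by
      simp only [(hf.per z).1, (hf.per z).2, (hg.per z).1, (hg.per z).2, and_self])
  simp only [dx_mul (sp_diff hf) (sp_diff hg)] at h1
  rw [add_Q (cm (sp_cont (hSPB.1 f hf).1) (sp_cont hg))
    (cm (sp_cont hf) (sp_cont (hSPB.1 g hg).1))] at h1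
  exact eq_neg_of_add_eq_zero_right h1

/-- Integration by parts in `y`. -/
lemma iby (hINT : S_INT) (hSPB : S_SPB) {f g : ℂ → ℂ} (hf : SP f) (hg : SP g) :
    ∫ z in Q, f z * dy g z = -∫ z in Q, dy f z * g z := by
  have h1 := hINT.2.1 (fun w => f w * g w)
    ((hf.smooth.mul hg.smooth).of_le (by exact_mod_cast le_top)) (fun z => by
      simp only [(hf.per z).1, (hf.per z).2, (hg.per z).1, (hg.per z).2, and_self])
  simp only [dy_mul (sp_diff hf) (sp_diff hg)] at h1
  rw [add_Q (cm (sp_cont (hSPB.1 f hf).2.1) (sp_cont hg))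
    (cm (sp_cont hf) (sp_cont (hSPB.1 g hg).2.1))] at h1
  exact eq_neg_of_add_eq_zero_right h1

theorem IB (hINT : S_INT) (hSPB : S_SPB) : S_IB := by
  refine ⟨fun T H hT hH => ?_, fun q H hq hH => ?_⟩
  · obtain ⟨hTx, hTy, -, -, hTc, -, hcx, hcy⟩ := hSPB.1 T hT
    obtain ⟨hHx, hHy, hHl, -, -, -, -, -⟩ := hSPB.1 H hH
    obtain ⟨hHxx, -⟩ := hSPB.1 _ hHx
    obtain ⟨-, hHyy, -⟩ := hSPB.1 _ hHy
    have cTx : Continuous fun z => conj (dx T z) := continuous_conj.comp (sp_cont hTx)
    have cTy : Continuous fun z => conj (dy T z) := continuous_conj.comp (sp_cont hTy)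
    rw [re_Q (cm (sp_cont hTc) (cm continuous_const (sp_cont hHl))),
      re_Q (ca (cm cTx (sp_cont hHx)) (cm cTy (sp_cont hHy)))]
    rw [← neg_re]
    congr 1
    have h1 := ibx hINT hSPB hTc hHx
    have h2 := iby hINT hSPB hTc hHy
    simp only [hcx] at h1
    simp only [hcy] at h2
    rw [add_Q (cm cTx (sp_cont hHx)) (cm cTy (sp_cont hHy)), neg_add,
      ← h1, ← h2, ← add_Q (cm (sp_cont hTc) (sp_cont hHxx))
        (cm (sp_cont hTc) (sp_cont hHyy))]
    refine integral_congr_ae (Filter.Eventually.of_forall fun z => ?_)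
    simp only [hl]
    ring
  · obtain ⟨hqx, hqy, -, -, hqc, -, hcx, hcy⟩ := hSPB.1 q hq
    obtain ⟨hHx, hHy, -, hHz, -, hcomm, -, -⟩ := hSPB.1 H hH
    obtain ⟨hHxx, hHxy, -⟩ := hSPB.1 _ hHx
    obtain ⟨hHyx, hHyy, -⟩ := hSPB.1 _ hHy
    have cqx : Continuous fun z => conj (dx q z) := continuous_conj.comp (sp_cont hqx)
    have cqy : Continuous fun z => conj (dy q z) := continuous_conj.comp (sp_cont hqy)
    rw [re_Q (cm (sp_cont hqc) (sp_cont hHz)),
      re_Q (cm (ca cqx (cm continuous_const cqy)) (ca (sp_cont hHx)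
        (cm continuous_const (sp_cont hHy))))]
    have e1 := ibx hINT hSPB hqc hHx
    have e2 := ibx hINT hSPB hqc hHy
    have e3 := iby hINT hSPB hqc hHx
    have e4 := iby hINT hSPB hqc hHy
    simp only [hcx] at e1 e2
    simp only [hcy] at e3 e4
    have k1 : 2 * ∫ z in Q, conj (q z) * zb H z =
        (∫ z in Q, conj (q z) * dx (dx H) z) + I * (∫ z in Q, conj (q z) * dx (dy H) z)
          + I * (∫ z in Q, conj (q z) * dy (dx H) z) - ∫ z in Q, conj (q z) * dy (dy H) z := by
      rw [← four_Q (cm (sp_cont hqc) (sp_cont hHxx)) (cm (sp_cont hqc) (sp_cont hHyx))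
        (cm (sp_cont hqc) (sp_cont hHxy)) (cm (sp_cont hqc) (sp_cont hHyy)),
        ← integral_const_mul]
      refine integral_congr_ae (Filter.Eventually.of_forall fun z => ?_)
      simp only [zb, hcomm]
      ring
    have k2 : ∫ z in Q, (conj (dx q z) + I * conj (dy q z)) * (dx H z + I * dy H z) =
        (∫ z in Q, conj (dx q z) * dx H z) + I * (∫ z in Q, conj (dx q z) * dy H z)
          + I * (∫ z in Q, conj (dy q z) * dx H z) - ∫ z in Q, conj (dy q z) * dy H z := by
      rw [← four_Q (cm cqx (sp_cont hHx)) (cm cqx (sp_cont hHy)) (cm cqy (sp_cont hHx))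
        (cm cqy (sp_cont hHy))]
      refine integral_congr_ae (Filter.Eventually.of_forall fun z => ?_)
      linear_combination (conj (dy q z) * dy H z) * I_mul_I
    have k3 : 2 * ∫ z in Q, conj (q z) * zb H z =
        -∫ z in Q, (conj (dx q z) + I * conj (dy q z)) * (dx H z + I * dy H z) := by
      rw [k1, k2, e1, e2, e3, e4]
      ring
    have k4 := congrArg Complex.re k3
    rw [neg_re] at k4
    rw [← k4]
    simp

end Pool.Agent.Helper65.IW
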